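import Pool.Agent.W787.KG.Defs

/-!
# KG-RK

The gradient of the Newton kernel by subordination.
-/

set_option autoImplicit false

open MeasureTheory Set Metric Filter Topology Real

namespace Pool.Agent.W496.KG.RK

open Pool.Agent.W787.KG

theorem rk : S_RK := by
  intro z hz
  have hr : 0 < ‖z‖ := norm_pos_iff.2 hz
  obtain ⟨r, hrz⟩ : ∃ r, r = ‖z‖ := ⟨_, rfl⟩
  rw [← hrz] at hr ⊢
  obtain ⟨c, hc⟩ : ∃ c : ℝ, c = 1 / 2 * (1 / Real.sqrt (4 * π)) ^ 3 := ⟨_, rfl⟩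
  have hb : 0 < r ^ 2 / 4 := by positivity
  have hgam : Real.Gamma (3 / 2) = Real.sqrt π / 2 := by
    have h1 := Real.Gamma_add_one (s := 1 / 2) (by norm_num)
    rw [Real.Gamma_one_half_eq] at h1
    have h2 : (1 / 2 + 1 : ℝ) = 3 / 2 := by norm_num
    rw [h2] at h1
    rw [h1]
    ring
  have hsq : Real.sqrt (4 * π) = 2 * Real.sqrt π := by
    rw [Real.sqrt_mul (by norm_num), show (4 : ℝ) = 2 ^ 2 by norm_num,
      Real.sqrt_sq (by norm_num)]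
  have hpi : 0 < Real.sqrt π := Real.sqrt_pos.2 Real.pi_pos
  have hpi2 : Real.sqrt π ^ 2 = π := Real.sq_sqrt Real.pi_pos.le
  have hG : ∫ y in Ioi (0 : ℝ), c * (y ^ ((3 / 2 : ℝ) - 1) * Real.exp (-(r ^ 2 / 4 * y)))
      = 1 / (4 * π * r ^ 3) := by
    rw [integral_const_mul, Real.integral_rpow_mul_exp_neg_mul_Ioi (by norm_num) hb, hgam]
    have h1 : (1 / (r ^ 2 / 4)) ^ (3 / 2 : ℝ) = (2 / r) ^ 3 := by
      have h2 : 1 / (r ^ 2 / 4) = (2 / r) ^ (2 : ℝ) := by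
        rw [Real.rpow_two]
        field_simp
        norm_num
      rw [h2, ← Real.rpow_mul (by positivity)]
      rw [show (2 : ℝ) * (3 / 2) = ((3 : ℕ) : ℝ) by norm_num, Real.rpow_natCast]
    rw [h1, hc, hsq]
    have h3 : 4 * π * r ^ 3 = 4 * Real.sqrt π ^ 2 * r ^ 3 := by rw [hpi2]
    rw [h3]
    field_simp
    norm_num
  have hGi : IntegrableOn (fun y : ℝ => c * (y ^ ((3 / 2 : ℝ) - 1) *
      Real.exp (-(r ^ 2 / 4 * y)))) (Ioi 0) := by
    apply Integrable.of_integral_ne_zero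
    rw [hG]
    positivity
  have heq : ∀ τ ∈ Ioi (0 : ℝ), 1 / (2 * τ) * GK τ z =
      (|(-1 : ℝ)| * τ ^ ((-1 : ℝ) - 1)) • (fun y : ℝ => c * (y ^ ((3 / 2 : ℝ) - 1) *
      Real.exp (-(r ^ 2 / 4 * y)))) (τ ^ (-1 : ℝ)) := by
    intro τ hτ
    have hτ' : (0 : ℝ) < τ := hτ
    have hs : 0 < Real.sqrt τ := Real.sqrt_pos.2 hτ'
    have hs2 : Real.sqrt τ ^ 2 = τ := Real.sq_sqrt hτ'.le
    unfold GK
    rw [← hrz]
    have h1 : τ ^ (-1 : ℝ) = 1 / τ := by rw [Real.rpow_neg_one, one_div]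
    have h2 : τ ^ ((-1 : ℝ) - 1) = 1 / τ ^ 2 := by
      rw [show ((-1 : ℝ) - 1) = -((2 : ℕ) : ℝ) by norm_num, Real.rpow_neg hτ'.le,
        Real.rpow_natCast, one_div]
    have h3 : (1 / τ) ^ ((3 / 2 : ℝ) - 1) = 1 / Real.sqrt τ := by
      rw [show ((3 / 2 : ℝ) - 1) = 1 / 2 by norm_num, ← Real.sqrt_eq_rpow,
        Real.sqrt_div (by norm_num), Real.sqrt_one]
    have h4 : -(r ^ 2 / 4 * (1 / τ)) = -r ^ 2 / (4 * τ) := by
      field_simp
    have h5 : Real.sqrt (4 * π * τ) = Real.sqrt (4 * π) * Real.sqrt τ :=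
      Real.sqrt_mul (by positivity) _
    simp only [smul_eq_mul]
    rw [h1, h2, h3, h4, h5, abs_neg, abs_one, one_mul, hc]
    have h6 : 0 < Real.sqrt (4 * π) := Real.sqrt_pos.2 (by positivity)
    generalize Real.sqrt (4 * π) = q at *
    generalize Real.exp (-r ^ 2 / (4 * τ)) = e at *
    generalize Real.sqrt τ = s at *
    rw [← hs2]
    field_simp
  have hint : IntegrableOn (fun τ : ℝ => (|(-1 : ℝ)| * τ ^ ((-1 : ℝ) - 1)) •
      (fun y : ℝ => c * (y ^ ((3 / 2 : ℝ) - 1) *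
      Real.exp (-(r ^ 2 / 4 * y)))) (τ ^ (-1 : ℝ))) (Ioi 0) :=
    (integrableOn_Ioi_comp_rpow_iff _ (by norm_num)).2 hGi
  constructor
  · exact hint.congr_fun (fun τ hτ => (heq τ hτ).symm) measurableSet_Ioi
  · rw [setIntegral_congr_fun measurableSet_Ioi heq]
    exact (integral_comp_rpow_Ioi (fun y : ℝ => c * (y ^ ((3 / 2 : ℝ) - 1) *
      Real.exp (-(r ^ 2 / 4 * y)))) (p := -1) (by norm_num)).trans hG

end Pool.Agent.W496.KG.RK
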